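import Pool.Agent.H96.MO.One

/-!
# Module IND: independence of the residues modulo different primes

`Y F H q x = ∑_{h ≤ H} F(x+h) c_q(x+h)`, `F` periodic mod `D`, `q` prime to `D`. `step`: the values of a function of period `M`
(`D ∣ M`) and of `Y F H q` over a period `M q`: the residue mod `q` runs over everything for every residue mod `M`.
Consequences: mean values of `g = ∑_q Y_q` (zero), `g ^ 2`, `exp (t g)`.
-/

set_option autoImplicit false

open Finset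

namespace Pool.Agent.H96.MO

/-- `M` is a period of `f` -/
def Per (M : ℕ) (f : ℤ → ℝ) : Prop := ∀ z : ℤ, f (z + M) = f z

theorem Per.mul {M : ℕ} {f : ℤ → ℝ} (h : Per M f) (j : ℕ) (z : ℤ) : f (z + (M : ℤ) * j) = f z := by
  induction j with
  | zero => simp
  | succ j ih =>
    have h1 : z + (M : ℤ) * ((j + 1 : ℕ) : ℤ) = (z + (M : ℤ) * j) + M := by push_cast; ring
    rw [h1, h, ih]

theorem Per.dvd {D M : ℕ} {f : ℤ → ℝ} (h : Per D f) (hd : D ∣ M) : Per M f := by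
  obtain ⟨k, rfl⟩ := hd
  intro z
  have := h.mul k z
  push_cast
  exact this

theorem per_cq (q : ℕ) : Per q (cq q) := by
  intro z
  unfold cq
  have h1 : (q : ℤ) ∣ z + q ↔ (q : ℤ) ∣ z := by simp
  simp only [h1]

/-- the part of the prime `q` -/
noncomputable def Y (F : ℤ → ℝ) (H q : ℕ) (x : ℤ) : ℝ := ∑ h ∈ Icc 1 H, F (x + h) * cq q (x + h)

theorem per_Y {F : ℤ → ℝ} {D M q H : ℕ} (hF : Per D F) (hD : D ∣ M) (hq : q ∣ M) : Per M (Y F H q) := by
  intro z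
  unfold Y
  refine sum_congr rfl fun h _ => ?_
  have h1 : z + (M : ℤ) + h = (z + h) + M := by ring
  rw [h1, hF.dvd hD, (per_cq q).dvd hq]

theorem per_sum {F : ℤ → ℝ} {D M H : ℕ} (hF : Per D F) (hD : D ∣ M) {Q : Finset ℕ} (hq : ∀ q ∈ Q, q ∣ M) :
    Per M (fun x => ∑ q ∈ Q, Y F H q x) := by
  intro z
  exact sum_congr rfl fun q hqQ => per_Y hF hD (hq q hqQ) z

theorem sum_range_mul' (f : ℕ → ℝ) (M q : ℕ) :
    ∑ x ∈ range (M * q), f x = ∑ j ∈ range q, ∑ y ∈ range M, f (M * j + y) := by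
  induction q with
  | zero => simp
  | succ q ih => rw [Nat.mul_succ, sum_range_add, ih, sum_range_succ]

theorem sum_res (φ : ℕ → ℝ) {M q : ℕ} (hq : 0 < q) (hc : Nat.Coprime M q) (y : ℕ) :
    ∑ j ∈ range q, φ ((M * j + y) % q) = ∑ r ∈ range q, φ r := by
  have hinj : Set.InjOn (fun j => (M * j + y) % q) (range q : Set ℕ) := by
    intro a ha b hb hab
    have ha' := mem_range.1 (mem_coe.1 ha)
    have hb' := mem_range.1 (mem_coe.1 hb)
    have h1 : M * a + y ≡ M * b + y [MOD q] := hab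
    have h2 : M * a ≡ M * b [MOD q] := Nat.ModEq.add_right_cancel' y h1
    have h3 : a ≡ b [MOD q] := Nat.ModEq.cancel_left_of_coprime (by rw [Nat.gcd_comm]; exact hc) h2
    exact Nat.ModEq.eq_of_lt_of_lt h3 ha' hb'
  have himg : (range q).image (fun j => (M * j + y) % q) = range q := by
    refine eq_of_subset_of_card_le ?_ ?_
    · intro r hr
      obtain ⟨j, _, rfl⟩ := mem_image.1 hr
      exact mem_range.2 (Nat.mod_lt _ hq)
    · rw [card_image_of_injOn hinj]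
  conv_rhs => rw [← himg]
  rw [sum_image hinj]

theorem cq_mod (q n : ℕ) (z : ℤ) : cq q ((n : ℤ) + z) = cq q (((n % q : ℕ) : ℤ) + z) := by
  have h1 : (n : ℤ) + z = (((n % q : ℕ) : ℤ) + z) + (q : ℤ) * ((n / q : ℕ) : ℤ) := by
    have := Nat.mod_add_div n q
    have h2 : (n : ℤ) = ((n % q : ℕ) : ℤ) + (q : ℤ) * ((n / q : ℕ) : ℤ) := by exact_mod_cast this.symm
    linarith
  rw [h1, (per_cq q).mul]

/-- independence -/
theorem step {F S : ℤ → ℝ} {M q : ℕ} (hF : Per M F) (hS : Per M S) (hq : 0 < q) (hc : Nat.Coprime M q)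
    (H : ℕ) (Φ : ℝ → ℝ → ℝ) : ∑ x ∈ range (M * q), Φ (S x) (Y F H q x) =
      ∑ y ∈ range M, ∑ r ∈ range q, Φ (S y) (∑ h ∈ Icc 1 H, F (y + h) * cq q (r + h)) := by
  rw [sum_range_mul', sum_comm]
  refine sum_congr rfl fun y _ => ?_
  rw [← sum_res (fun r => Φ (S y) (∑ h ∈ Icc 1 H, F (y + h) * cq q (r + h))) hq hc y]
  refine sum_congr rfl fun j _ => ?_
  have h1 : (((M * j + y : ℕ)) : ℤ) = (y : ℤ) + (M : ℤ) * j := by push_cast; ring
  congr 1
  · rw [h1, hS.mul]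
  · unfold Y
    refine sum_congr rfl fun h _ => ?_
    congr 1
    · rw [h1]
      have h2 : (y : ℤ) + (M : ℤ) * j + h = (y + h) + (M : ℤ) * j := by ring
      rw [h2, hF.mul]
    · rw [cq_mod]

section

variable {F : ℤ → ℝ} {D H : ℕ} (hF : Per D F) (hD : 0 < D)

/-- the primes -/
structure Pq (D H : ℕ) (Q : Finset ℕ) : Prop where
  pr : ∀ q ∈ Q, q.Prime
  lt : ∀ q ∈ Q, H < q
  co : ∀ q ∈ Q, Nat.Coprime D q

theorem Pq.mono {Q Q' : Finset ℕ} (h : Pq D H Q) (hs : Q' ⊆ Q) : Pq D H Q' :=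
  ⟨fun q hq => h.pr q (hs hq), fun q hq => h.lt q (hs hq), fun q hq => h.co q (hs hq)⟩

theorem cop_prod {Q : Finset ℕ} {q : ℕ} (h : Pq D H (insert q Q)) (hq : q ∉ Q) :
    Nat.Coprime (D * ∏ p ∈ Q, p) q := by
  refine Nat.Coprime.mul_left (h.co q (mem_insert_self q Q)) ?_
  refine Nat.Coprime.prod_left fun p hp => ?_
  rw [Nat.coprime_primes (h.pr p (mem_insert_of_mem hp)) (h.pr q (mem_insert_self q Q))]
  rintro rfl
  exact hq hp

include hF

theorem mean_exp {B V t : ℝ} (hB0 : 0 ≤ B) (hFB : ∀ z, |F z| ≤ B)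
    (hFV : ∀ z : ℤ, ∑ h ∈ Icc 1 H, F (z + h) ^ 2 ≤ V) (hB : 9 * B ^ 2 ≤ V) (ht : t ^ 2 * V = 1)
    (Q : Finset ℕ) (hQ : Pq D H Q) :
    ∑ x ∈ range (D * ∏ q ∈ Q, q), Real.exp (t * ∑ q ∈ Q, Y F H q x) ≤
      (D * ∏ q ∈ Q, q : ℕ) * Real.exp (4 * ∑ q ∈ Q, 1 / (q : ℝ)) := by
  classical
  induction Q using Finset.induction_on with
  | empty => simp
  | insert q Q hq ih =>
    have hQ' : Pq D H Q := hQ.mono (subset_insert q Q)
    have ih' := ih hQ'
    have hqp := hQ.pr q (mem_insert_self q Q)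
    have hqH := hQ.lt q (mem_insert_self q Q)
    obtain ⟨M, hM⟩ : ∃ M, M = D * ∏ p ∈ Q, p := ⟨_, rfl⟩
    have h1 : D * ∏ p ∈ insert q Q, p = M * q := by
      rw [prod_insert hq, hM]
      ring
    rw [h1]
    rw [← hM] at ih'
    have hDM : D ∣ M := by rw [hM]; exact dvd_mul_right _ _
    have hS : Per M (fun x => ∑ p ∈ Q, Y F H p x) := by
      refine per_sum hF hDM fun p hp => ?_
      rw [hM]
      exact (dvd_prod_of_mem _ hp).mul_left D
    have h2 := step (hF.dvd hDM) hS hqp.pos (by rw [hM]; exact cop_prod hQ hq) H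
      (fun s z => Real.exp (t * s) * Real.exp (t * z))
    have h3 : ∀ x : ℤ, Real.exp (t * ∑ p ∈ insert q Q, Y F H p x) =
        Real.exp (t * ∑ p ∈ Q, Y F H p x) * Real.exp (t * Y F H q x) := by
      intro x
      rw [sum_insert hq, ← Real.exp_add]
      congr 1
      ring
    rw [sum_congr rfl fun (x : ℕ) _ => h3 (x : ℤ), h2]
    have h4 : ∀ y ∈ range M, ∑ r ∈ range q, Real.exp (t * ∑ p ∈ Q, Y F H p y) *
        Real.exp (t * ∑ h ∈ Icc 1 H, F (y + h) * cq q (r + h)) ≤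
          Real.exp (t * ∑ p ∈ Q, Y F H p y) * (q * Real.exp (4 / q)) := by
      intro y _
      rw [← mul_sum]
      refine mul_le_mul_of_nonneg_left ?_ (Real.exp_pos _).le
      exact one_prime hqp.two_le hqH (fun h => F (y + h)) hB0 (fun h _ => hFB _) (hFV y) hB ht
    refine (sum_le_sum h4).trans ?_
    rw [← sum_mul, sum_insert hq, mul_add, Real.exp_add]
    have h5 : (4 : ℝ) * (1 / (q : ℝ)) = 4 / q := by ring
    rw [h5]
    push_cast
    have h6 : 0 ≤ (q : ℝ) * Real.exp (4 / q) := by positivity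
    calc _ ≤ (M : ℝ) * Real.exp (4 * ∑ q ∈ Q, 1 / (q : ℝ)) * (q * Real.exp (4 / q)) :=
          mul_le_mul_of_nonneg_right ih' h6
      _ = _ := by ring

theorem sum_Z {q : ℕ} (hq : 2 ≤ q) (a : ℕ → ℝ) : ∑ r ∈ range q, ∑ h ∈ Icc 1 H, a h * cq q (r + h) = 0 := by
  rw [sum_comm]
  refine sum_eq_zero fun h _ => ?_
  rw [← mul_sum]
  simp only [cq_eq]
  rw [← sum_div, sum_sub_distrib, ← mul_sum, sum_uq (by omega)]
  simp

/-- the mean value of `g` is zero -/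
theorem mean_one (Q : Finset ℕ) (hQ : Pq D H Q) :
    ∑ x ∈ range (D * ∏ q ∈ Q, q), ∑ q ∈ Q, Y F H q x = 0 := by
  classical
  induction Q using Finset.induction_on with
  | empty => simp
  | insert q Q hq ih =>
    have hQ' : Pq D H Q := hQ.mono (subset_insert q Q)
    have ih' := ih hQ'
    have hqp := hQ.pr q (mem_insert_self q Q)
    obtain ⟨M, hM⟩ : ∃ M, M = D * ∏ p ∈ Q, p := ⟨_, rfl⟩
    have h1 : D * ∏ p ∈ insert q Q, p = M * q := by
      rw [prod_insert hq, hM]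
      ring
    rw [h1]
    rw [← hM] at ih'
    have hDM : D ∣ M := by rw [hM]; exact dvd_mul_right _ _
    have hS : Per M (fun x => ∑ p ∈ Q, Y F H p x) := by
      refine per_sum hF hDM fun p hp => ?_
      rw [hM]
      exact (dvd_prod_of_mem _ hp).mul_left D
    have h2 := step (hF.dvd hDM) hS hqp.pos (by rw [hM]; exact cop_prod hQ hq) H (fun s z => z + s)
    have h3 : ∀ x : ℤ, ∑ p ∈ insert q Q, Y F H p x = Y F H q x + ∑ p ∈ Q, Y F H p x := fun x => sum_insert hq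
    rw [sum_congr rfl fun (x : ℕ) _ => h3 (x : ℤ), h2]
    have h4 : ∀ y ∈ range M, ∑ r ∈ range q, (∑ h ∈ Icc 1 H, F (y + h) * cq q (r + h) + ∑ p ∈ Q, Y F H p y) =
        q * ∑ p ∈ Q, Y F H p y := by
      intro y _
      rw [sum_add_distrib, sum_Z hF hqp.two_le (fun h => F (y + h)), sum_const, card_range, nsmul_eq_mul, zero_add]
    rw [sum_congr rfl h4, ← mul_sum, ih', mul_zero]

end

/-- the second moment at one prime -/
theorem sum_Z2 {q H : ℕ} (hq : 2 ≤ q) (hH : H < q) (a : ℕ → ℝ) {V : ℝ}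
    (ha2 : ∑ h ∈ Icc 1 H, a h ^ 2 ≤ V) :
    ∑ r ∈ range q, (∑ h ∈ Icc 1 H, a h * cq q (r + h)) ^ 2 ≤ 4 * V := by
  have hq2 : (2 : ℝ) ≤ q := by exact_mod_cast hq
  have hq1 : (0 : ℝ) < (q : ℝ) - 1 := by linarith
  have hV0 : 0 ≤ V := (sum_nonneg fun h _ => sq_nonneg (a h)).trans ha2
  obtain ⟨S, hS⟩ : ∃ S : ℝ, S = ∑ h ∈ Icc 1 H, a h := ⟨_, rfl⟩
  obtain ⟨A, hA⟩ : ∃ A : ℕ → ℝ, A = fun r : ℕ => ∑ h ∈ Icc 1 H, a h * uq q ((r : ℤ) + h) := ⟨_, rfl⟩
  have hZ : ∀ r : ℕ, ∑ h ∈ Icc 1 H, a h * cq q (r + h) = (S - q * A r) / ((q : ℝ) - 1) := by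
    intro r
    rw [hS, hA]
    simp only [cq_eq]
    rw [eq_div_iff hq1.ne', sum_mul, mul_sum, ← sum_sub_distrib]
    refine sum_congr rfl fun h _ => ?_
    field_simp
  have hA1 : ∑ r ∈ range q, A r = S := by rw [hA, hS]; exact sum_A hq hH a
  have hA2 : ∑ r ∈ range q, A r ^ 2 = ∑ h ∈ Icc 1 H, a h ^ 2 := by rw [hA]; exact sum_A2 hq hH a
  have h2 : ∀ r ∈ range q, (∑ h ∈ Icc 1 H, a h * cq q (r + h)) ^ 2 =
      1 / ((q : ℝ) - 1) ^ 2 * (S ^ 2 - 2 * S * q * A r + (q : ℝ) ^ 2 * A r ^ 2) := by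
    intro r _
    rw [hZ r]
    field_simp
    ring
  rw [sum_congr rfl h2, ← mul_sum, sum_add_distrib, sum_sub_distrib, sum_const, card_range, nsmul_eq_mul,
    ← mul_sum, ← mul_sum, hA1, hA2, one_div, inv_mul_le_iff₀ (by positivity)]
  have h3 : 0 ≤ (q : ℝ) * S ^ 2 := by positivity
  have h5 : (q : ℝ) ^ 2 ≤ 4 * ((q : ℝ) - 1) ^ 2 := by nlinarith
  nlinarith [mul_le_mul_of_nonneg_left ha2 (sq_nonneg (q : ℝ)), mul_le_mul_of_nonneg_right h5 hV0]

section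

variable {F : ℤ → ℝ} {D H : ℕ} (hF : Per D F)

include hF

/-- the second moment of `g` -/
theorem mean_two {V : ℝ} (hFV : ∀ z : ℤ, ∑ h ∈ Icc 1 H, F (z + h) ^ 2 ≤ V)
    (Q : Finset ℕ) (hQ : Pq D H Q) :
    ∑ x ∈ range (D * ∏ q ∈ Q, q), (∑ q ∈ Q, Y F H q x) ^ 2 ≤
      (D * ∏ q ∈ Q, q : ℕ) * (4 * V * ∑ q ∈ Q, 1 / (q : ℝ)) := by
  classical
  induction Q using Finset.induction_on with
  | empty => simp
  | insert q Q hq ih =>
    have hQ' : Pq D H Q := hQ.mono (subset_insert q Q)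
    have ih' := ih hQ'
    have hqp := hQ.pr q (mem_insert_self q Q)
    have hqH := hQ.lt q (mem_insert_self q Q)
    obtain ⟨M, hM⟩ : ∃ M, M = D * ∏ p ∈ Q, p := ⟨_, rfl⟩
    have h1 : D * ∏ p ∈ insert q Q, p = M * q := by
      rw [prod_insert hq, hM]
      ring
    rw [h1]
    rw [← hM] at ih'
    have hDM : D ∣ M := by rw [hM]; exact dvd_mul_right _ _
    have hS : Per M (fun x => ∑ p ∈ Q, Y F H p x) := by
      refine per_sum hF hDM fun p hp => ?_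
      rw [hM]
      exact (dvd_prod_of_mem _ hp).mul_left D
    have h2 := step (hF.dvd hDM) hS hqp.pos (by rw [hM]; exact cop_prod hQ hq) H (fun s z => (z + s) ^ 2)
    have h3 : ∀ x : ℤ, (∑ p ∈ insert q Q, Y F H p x) ^ 2 = (Y F H q x + ∑ p ∈ Q, Y F H p x) ^ 2 := fun x => by
      rw [sum_insert hq]
    rw [sum_congr rfl fun (x : ℕ) _ => h3 (x : ℤ), h2]
    have h4 : ∀ y ∈ range M, ∑ r ∈ range q, (∑ h ∈ Icc 1 H, F (y + h) * cq q (r + h) + ∑ p ∈ Q, Y F H p y) ^ 2 ≤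
        4 * V + q * (∑ p ∈ Q, Y F H p y) ^ 2 := by
      intro y _
      obtain ⟨s, hs⟩ : ∃ s, s = ∑ p ∈ Q, Y F H p y := ⟨_, rfl⟩
      rw [← hs]
      have h5 : ∀ r ∈ range q, (∑ h ∈ Icc 1 H, F (y + h) * cq q (r + h) + s) ^ 2 =
          (∑ h ∈ Icc 1 H, F (y + h) * cq q (r + h)) ^ 2 + 2 * s * (∑ h ∈ Icc 1 H, F (y + h) * cq q (r + h)) + s ^ 2 := by
        intro r _
        ring
      rw [sum_congr rfl h5, sum_add_distrib, sum_add_distrib, ← mul_sum, sum_Z hF hqp.two_le (fun h => F (y + h)),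
        sum_const, card_range, nsmul_eq_mul, mul_zero, add_zero]
      have h6 := sum_Z2 hqp.two_le hqH (fun h => F (y + h)) (hFV y)
      linarith
    refine (sum_le_sum h4).trans ?_
    rw [sum_add_distrib, sum_const, card_range, nsmul_eq_mul, ← mul_sum, sum_insert hq]
    have hq0 : (0 : ℝ) < q := by exact_mod_cast hqp.pos
    have h7 : (q : ℝ) * ∑ x ∈ range M, (∑ p ∈ Q, Y F H p x) ^ 2 ≤ q * ((M : ℝ) * (4 * V * ∑ q ∈ Q, 1 / (q : ℝ))) :=
      mul_le_mul_of_nonneg_left ih' hq0.le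
    push_cast
    have h8 : (M : ℝ) * q * (4 * V * (1 / (q : ℝ) + ∑ q ∈ Q, 1 / (q : ℝ))) = (M : ℝ) * (4 * V) +
        q * ((M : ℝ) * (4 * V * ∑ q ∈ Q, 1 / (q : ℝ))) := by
      field_simp
    rw [h8]
    linarith

end

end Pool.Agent.H96.MO
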