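import Mathlib

/-!
# Module RC: combinations of indicators of residue classes

`RC M B f`: `f` is a finite sum of functions `c 1[m ∣ x + a]`, `m ∣ M`, with `∑ |c| ≤ B`. The class is closed under products.
Sums over intervals are the expected ones up to `B`.
-/

set_option autoImplicit false

open Finset

namespace Pool.Agent.H96.MO

/-- combinations of residue classes to moduli dividing `M` with coefficients of absolute sum at most `B` -/
inductive RC (M : ℕ) : ℝ → (ℤ → ℝ) → Prop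
  | zero : RC M 0 (fun _ => 0)
  | ind (m : ℕ) (a : ℤ) (c : ℝ) (hm : m ∣ M) : RC M |c| (fun x => if (m : ℤ) ∣ x + a then c else 0)
  | add (B B' : ℝ) (f g : ℤ → ℝ) (hf : RC M B f) (hg : RC M B' g) : RC M (B + B') (fun x => f x + g x)
  | mono (B B' : ℝ) (f : ℤ → ℝ) (hf : RC M B f) (h : B ≤ B') : RC M B' f

/-- the mean value over the period `M` -/
noncomputable def mean (M : ℕ) (f : ℤ → ℝ) : ℝ := (∑ x ∈ range M, f x) / M

variable {M : ℕ}

theorem RC.nonneg {B : ℝ} {f : ℤ → ℝ} (h : RC M B f) : 0 ≤ B := by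
  induction h with
  | zero => exact le_rfl
  | ind m a c hm => exact abs_nonneg c
  | add B B' f g _ _ ih1 ih2 => exact add_nonneg ih1 ih2
  | mono B B' f _ h ih => exact ih.trans h

theorem RC.bound {B : ℝ} {f : ℤ → ℝ} (h : RC M B f) (x : ℤ) : |f x| ≤ B := by
  induction h with
  | zero => simp
  | ind m a c hm =>
    dsimp only
    split_ifs
    · exact le_rfl
    · simp
  | add B B' f g _ _ ih1 ih2 => exact (abs_add_le _ _).trans (add_le_add ih1 ih2)
  | mono B B' f _ h ih => exact ih.trans h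

theorem RC.const (c : ℝ) : RC M |c| (fun _ => c) := by
  have h := RC.ind (M := M) 1 0 c (one_dvd M)
  have h1 : (fun x : ℤ => if ((1 : ℕ) : ℤ) ∣ x + 0 then c else 0) = fun _ => c := by
    funext x
    simp
  rwa [h1] at h

theorem RC.sum {ι : Type*} (s : Finset ι) (B : ι → ℝ) (f : ι → ℤ → ℝ) (h : ∀ i ∈ s, RC M (B i) (f i)) :
    RC M (∑ i ∈ s, B i) (fun x => ∑ i ∈ s, f i x) := by
  classical
  induction s using Finset.induction_on with
  | empty => simpa using RC.zero
  | insert i s hi ih =>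
    have h1 := RC.add _ _ _ _ (h i (mem_insert_self i s)) (ih fun j hj => h j (mem_insert_of_mem hj))
    simp only [sum_insert hi]
    exact h1

theorem RC.mul_ind {B : ℝ} {f : ℤ → ℝ} (h : RC M B f) (m : ℕ) (a : ℤ) (c : ℝ) (hm : m ∣ M) :
    RC M (B * |c|) (fun x => f x * if (m : ℤ) ∣ x + a then c else 0) := by
  induction h with
  | zero =>
    simp only [zero_mul]
    exact RC.zero
  | ind m' a' c' hm' =>
    by_cases hex : ∃ x0 : ℤ, (m' : ℤ) ∣ x0 + a' ∧ (m : ℤ) ∣ x0 + a
    · obtain ⟨x0, h1, h2⟩ := hex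
      have h3 := RC.ind (M := M) (Nat.lcm m' m) (-x0) (c' * c) (Nat.lcm_dvd hm' hm)
      rw [abs_mul] at h3
      have h4 : (fun x : ℤ => (if (m' : ℤ) ∣ x + a' then c' else 0) * if (m : ℤ) ∣ x + a then c else 0) =
          fun x : ℤ => if ((Nat.lcm m' m : ℕ) : ℤ) ∣ x + -x0 then c' * c else 0 := by
        funext x
        have h5 : ((Nat.lcm m' m : ℕ) : ℤ) ∣ x + -x0 ↔ (m' : ℤ) ∣ x + a' ∧ (m : ℤ) ∣ x + a := by
          have e1 : ((Nat.lcm m' m : ℕ) : ℤ) ∣ x + -x0 ↔ (m' : ℤ) ∣ x + -x0 ∧ (m : ℤ) ∣ x + -x0 := by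
            rw [Int.natCast_dvd, Int.natCast_dvd, Int.natCast_dvd, Nat.lcm_dvd_iff]
          rw [e1]
          have e2 : (m' : ℤ) ∣ x + -x0 ↔ (m' : ℤ) ∣ x + a' := by
            have : x + a' = (x + -x0) + (x0 + a') := by ring
            rw [this]
            exact (Int.dvd_add_left h1).symm
          have e3 : (m : ℤ) ∣ x + -x0 ↔ (m : ℤ) ∣ x + a := by
            have : x + a = (x + -x0) + (x0 + a) := by ring
            rw [this]
            exact (Int.dvd_add_left h2).symm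
          rw [e2, e3]
        by_cases g1 : (m' : ℤ) ∣ x + a'
        · by_cases g2 : (m : ℤ) ∣ x + a
          · rw [if_pos g1, if_pos g2, if_pos (h5.2 ⟨g1, g2⟩)]
          · rw [if_neg g2, if_neg (fun h => g2 (h5.1 h).2), mul_zero]
        · rw [if_neg g1, if_neg (fun h => g1 (h5.1 h).1), zero_mul]
      rw [h4]
      exact h3
    · have h4 : (fun x : ℤ => (if (m' : ℤ) ∣ x + a' then c' else 0) * if (m : ℤ) ∣ x + a then c else 0) =
          fun _ => 0 := by
        funext x
        by_cases g1 : (m' : ℤ) ∣ x + a'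
        · by_cases g2 : (m : ℤ) ∣ x + a
          · exact absurd ⟨x, g1, g2⟩ hex
          · rw [if_neg g2, mul_zero]
        · rw [if_neg g1, zero_mul]
      rw [h4]
      exact RC.mono 0 _ _ RC.zero (by positivity)
  | add B B' f g _ _ ih1 ih2 =>
    have h1 := RC.add _ _ _ _ ih1 ih2
    rw [add_mul]
    simp only [add_mul]
    exact h1
  | mono B B' f _ h ih => exact RC.mono _ _ _ ih (mul_le_mul_of_nonneg_right h (abs_nonneg c))

theorem RC.mul {B B' : ℝ} {f g : ℤ → ℝ} (hf : RC M B f) (hg : RC M B' g) :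
    RC M (B * B') (fun x => f x * g x) := by
  induction hg with
  | zero =>
    simp only [mul_zero]
    exact RC.zero
  | ind m a c hm => exact hf.mul_ind m a c hm
  | add B1 B2 g1 g2 _ _ ih1 ih2 =>
    have h1 := RC.add _ _ _ _ ih1 ih2
    rw [mul_add]
    simp only [mul_add]
    exact h1
  | mono B1 B2 g _ h ih => exact RC.mono _ _ _ ih (mul_le_mul_of_nonneg_left h hf.nonneg)

theorem RC.pow {B : ℝ} {f : ℤ → ℝ} (hf : RC M B f) (k : ℕ) : RC M (B ^ k) (fun x => f x ^ k) := by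
  induction k with
  | zero =>
    simp only [pow_zero]
    have := RC.const (M := M) 1
    rwa [abs_one] at this
  | succ k ih =>
    simp only [pow_succ]
    exact ih.mul hf

theorem RC.smul {B : ℝ} {f : ℤ → ℝ} (hf : RC M B f) (c : ℝ) : RC M (|c| * B) (fun x => c * f x) :=
  (RC.const c).mul hf

theorem RC.shift {B : ℝ} {f : ℤ → ℝ} (hf : RC M B f) (b : ℤ) : RC M B (fun x => f (x + b)) := by
  induction hf with
  | zero => exact RC.zero
  | ind m a c hm =>
    have h1 := RC.ind (M := M) m (b + a) c hm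
    have h2 : (fun x : ℤ => if (m : ℤ) ∣ x + b + a then c else 0) = fun x : ℤ => if (m : ℤ) ∣ x + (b + a) then c else 0 := by
      funext x
      rw [add_assoc]
    rw [h2]
    exact h1
  | add B1 B2 g1 g2 _ _ ih1 ih2 => exact RC.add _ _ _ _ ih1 ih2
  | mono B1 B2 g _ h ih => exact RC.mono _ _ _ ih h

/-- counting a residue class in an interval of length `N` -/
theorem count_ioc {m : ℕ} (hm : 0 < m) (a : ℤ) (X N : ℕ) :
    |(((Ioc X (X + N)).filter fun x : ℕ => (m : ℤ) ∣ (x : ℤ) + a).card : ℝ) - N / m| ≤ 1 := by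
  have h0 : 0 ≤ (-a) % (m : ℤ) := Int.emod_nonneg _ (by exact_mod_cast hm.ne')
  obtain ⟨v, hv⟩ := Int.eq_ofNat_of_zero_le h0
  have h1 : ((Ioc X (X + N)).filter fun x : ℕ => (m : ℤ) ∣ (x : ℤ) + a) =
      (Ioc X (X + N)).filter fun x : ℕ => x ≡ v [MOD m] := by
    refine filter_congr fun x _ => ?_
    rw [← Int.natCast_modEq_iff]
    have h2 : (v : ℤ) ≡ -a [ZMOD m] := by
      rw [← hv]
      exact Int.mod_modEq _ _
    constructor
    · intro h3
      refine Int.ModEq.trans ?_ h2.symm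
      refine (Int.modEq_iff_dvd.2 ?_).symm
      have e : (x : ℤ) - -a = x + a := by ring
      rwa [e]
    · intro h3
      have h4 := (h3.trans h2).symm
      rw [Int.modEq_iff_dvd] at h4
      have e : (x : ℤ) - -a = x + a := by ring
      rwa [e] at h4
  rw [h1]
  have h5 := Nat.Ioc_filter_modEq_card X (X + N) hm v
  have hm0 : (0 : ℚ) < m := by exact_mod_cast hm
  have h6 : ⌊((X : ℚ) - v) / m⌋ ≤ ⌊(((X + N : ℕ) : ℚ) - v) / m⌋ := by
    refine Int.floor_le_floor ?_
    refine div_le_div_of_nonneg_right ?_ hm0.le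
    push_cast
    have : (0 : ℚ) ≤ N := Nat.cast_nonneg _
    linarith
  rw [max_eq_left (by linarith)] at h5
  have h7 := Int.floor_le (((X : ℚ) - v) / m)
  have h8 := Int.lt_floor_add_one (((X : ℚ) - v) / m)
  have h9 := Int.floor_le ((((X + N : ℕ) : ℚ) - v) / m)
  have h10 := Int.lt_floor_add_one ((((X + N : ℕ) : ℚ) - v) / m)
  have h11 : (((X + N : ℕ) : ℚ) - v) / m = ((X : ℚ) - v) / m + N / m := by
    push_cast
    ring
  rw [h11] at h9 h10
  have h12 : ((((Ioc X (X + N)).filter fun x : ℕ => x ≡ v [MOD m]).card : ℤ) : ℚ) =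
      (⌊(((X + N : ℕ) : ℚ) - v) / m⌋ : ℚ) - (⌊((X : ℚ) - v) / m⌋ : ℚ) := by
    rw [h5]
    push_cast
    ring
  have h13 : |((((Ioc X (X + N)).filter fun x : ℕ => x ≡ v [MOD m]).card : ℕ) : ℚ) - N / m| ≤ 1 := by
    have h14 : ((((Ioc X (X + N)).filter fun x : ℕ => x ≡ v [MOD m]).card : ℕ) : ℚ) =
        ((((Ioc X (X + N)).filter fun x : ℕ => x ≡ v [MOD m]).card : ℤ) : ℚ) := by push_cast; rfl
    rw [h14, h12, h11, abs_le]
    constructor <;> linarith
  have h15 : (((|((((Ioc X (X + N)).filter fun x : ℕ => x ≡ v [MOD m]).card : ℕ) : ℚ) - N / m| : ℚ)) : ℝ) ≤ ((1 : ℚ) : ℝ) := by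
    exact_mod_cast h13
  push_cast at h15
  exact h15

/-- counting a residue class in a full period -/
theorem count_full {m : ℕ} (hm : 0 < m) (a : ℤ) (hM : m ∣ M) :
    (((range M).filter fun x : ℕ => (m : ℤ) ∣ (x : ℤ) + a).card : ℝ) = M / m := by
  obtain ⟨k, rfl⟩ := hM
  have h0 : 0 ≤ (-a) % (m : ℤ) := Int.emod_nonneg _ (by exact_mod_cast hm.ne')
  obtain ⟨v, hv⟩ := Int.eq_ofNat_of_zero_le h0
  have h1 : ((range (m * k)).filter fun x : ℕ => (m : ℤ) ∣ (x : ℤ) + a) =
      (Ico 0 (m * k)).filter fun x : ℕ => x ≡ v [MOD m] := by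
    rw [range_eq_Ico]
    refine filter_congr fun x _ => ?_
    rw [← Int.natCast_modEq_iff]
    have h2 : (v : ℤ) ≡ -a [ZMOD m] := by
      rw [← hv]
      exact Int.mod_modEq _ _
    constructor
    · intro h3
      refine Int.ModEq.trans ?_ h2.symm
      refine (Int.modEq_iff_dvd.2 ?_).symm
      have e : (x : ℤ) - -a = x + a := by ring
      rwa [e]
    · intro h3
      have h4 := (h3.trans h2).symm
      rw [Int.modEq_iff_dvd] at h4
      have e : (x : ℤ) - -a = x + a := by ring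
      rwa [e] at h4
  rw [h1]
  have h5 := Nat.Ico_filter_modEq_card 0 (m * k) hm v
  have hm0 : (0 : ℚ) < m := by exact_mod_cast hm
  have h6 : (((m * k : ℕ) : ℚ) - v) / m = (((0 : ℕ) : ℚ) - v) / m + (k : ℤ) := by
    push_cast
    field_simp
    ring
  rw [h6, Int.ceil_add_intCast] at h5
  have h7 : ((((Ico 0 (m * k)).filter fun x : ℕ => x ≡ v [MOD m]).card : ℕ) : ℤ) = k := by
    rw [h5]
    have : (0 : ℤ) ≤ k := Nat.cast_nonneg _
    rw [add_sub_cancel_left, max_eq_left this]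
  have h8 : ((Ico 0 (m * k)).filter fun x : ℕ => x ≡ v [MOD m]).card = k := by exact_mod_cast h7
  rw [h8]
  have hm1 : (m : ℝ) ≠ 0 := by exact_mod_cast hm.ne'
  push_cast
  field_simp

/-- sums over intervals -/
theorem RC.interval (hM : 0 < M) {B : ℝ} {f : ℤ → ℝ} (h : RC M B f) (X N : ℕ) :
    |∑ x ∈ Ioc X (X + N), f x - N * mean M f| ≤ B := by
  induction h with
  | zero => simp [mean]
  | ind m a c hm =>
    have hm0 : 0 < m := Nat.pos_of_dvd_of_pos hm hM
    have h1 : ∑ x ∈ Ioc X (X + N), (if (m : ℤ) ∣ (x : ℤ) + a then c else 0) =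
        (((Ioc X (X + N)).filter fun x : ℕ => (m : ℤ) ∣ (x : ℤ) + a).card : ℝ) * c := by
      rw [← sum_filter, sum_const, nsmul_eq_mul]
    have h2 : mean M (fun x => if (m : ℤ) ∣ x + a then c else 0) = c / m := by
      unfold mean
      rw [← sum_filter, sum_const, nsmul_eq_mul, count_full hm0 a hm]
      have hm1 : (m : ℝ) ≠ 0 := by exact_mod_cast hm0.ne'
      have hM1 : (M : ℝ) ≠ 0 := by exact_mod_cast hM.ne'
      field_simp
    rw [h1, h2]
    have h3 := count_ioc hm0 a X N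
    have h4 : (((Ioc X (X + N)).filter fun x : ℕ => (m : ℤ) ∣ (x : ℤ) + a).card : ℝ) * c - N * (c / m) =
        ((((Ioc X (X + N)).filter fun x : ℕ => (m : ℤ) ∣ (x : ℤ) + a).card : ℝ) - N / m) * c := by ring
    rw [h4, abs_mul]
    exact mul_le_of_le_one_left (abs_nonneg c) h3
  | add B1 B2 f g _ _ ih1 ih2 =>
    have h1 : ∑ x ∈ Ioc X (X + N), (f x + g x) - N * mean M (fun x => f x + g x) =
        (∑ x ∈ Ioc X (X + N), f x - N * mean M f) + (∑ x ∈ Ioc X (X + N), g x - N * mean M g) := by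
      unfold mean
      rw [sum_add_distrib, sum_add_distrib]
      ring
    rw [h1]
    exact (abs_add_le _ _).trans (add_le_add ih1 ih2)
  | mono B1 B2 g _ h ih => exact ih.trans h

end Pool.Agent.H96.MO
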