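import Pool.Agent.H67.VS.Defs
import Pool.Agent.H96.MO.Ind
import Pool.Agent.H96.MO.Rc

/-!
# Module FIN: moments of the test function `gH`

`mom`: the moments of order `2 k` over an interval; `bv1`, `bv2`: `g` and `g ^ 2` against functions of bounded variation; `fsh`: the
short sums of the squares of Selberg weights of a very small level. The modulus is `(∏ d ≤ L, d) * ∏ q ∈ Q, q`.
-/

set_option autoImplicit false

open Finset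

namespace Pool.Agent.H96.MO

open Pool.Agent.H67.VS

/-- the hypotheses on the weights, the primes and the length -/
structure Hyp (ρ : ℕ → ℝ) (L : ℕ) (Q : Finset ℕ) (H : ℕ) (K V : ℝ) : Prop where
  pr : ∀ q ∈ Q, q.Prime
  lL : ∀ q ∈ Q, L < q
  lH : ∀ q ∈ Q, H < q
  K0 : 0 ≤ K
  V0 : 0 < V
  hK : ∑ d ∈ Icc 1 L, |ρ d| ≤ K
  hV : ∀ x : ℕ, ∑ h ∈ Icc 1 H, FF ρ L x (h : ℤ) ^ 2 ≤ V
  hKV : 9 * K ^ 2 ≤ V

/-- the divisor sum as a function on the integers -/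
private noncomputable def FZ (ρ : ℕ → ℝ) (L : ℕ) (z : ℤ) : ℝ := ∑ d ∈ Icc 1 L, if (d : ℤ) ∣ z then ρ d else 0

private def DL (L : ℕ) : ℕ := ∏ d ∈ Icc 1 L, d

private theorem FF_eq (ρ : ℕ → ℝ) (L n : ℕ) (k : ℤ) : FF ρ L n k = FZ ρ L ((n : ℤ) + k) := rfl

private theorem DL_pos (L : ℕ) : 0 < DL L := prod_pos fun _ hd => (mem_Icc.1 hd).1

private theorem dvd_DL {L d : ℕ} (hd : d ∈ Icc 1 L) : d ∣ DL L := dvd_prod_of_mem (fun i => i) hd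

private theorem per_FZ (ρ : ℕ → ℝ) (L : ℕ) : Per (DL L) (FZ ρ L) := by
  intro z
  unfold FZ
  refine sum_congr rfl fun d hd => ?_
  have h1 : (d : ℤ) ∣ ((DL L : ℕ) : ℤ) := by exact_mod_cast dvd_DL hd
  have h2 : (d : ℤ) ∣ z + ((DL L : ℕ) : ℤ) ↔ (d : ℤ) ∣ z := Int.dvd_add_left h1
  simp only [h2]

private theorem abs_FZ {ρ : ℕ → ℝ} {L : ℕ} {K : ℝ} (hK : ∑ d ∈ Icc 1 L, |ρ d| ≤ K) (z : ℤ) : |FZ ρ L z| ≤ K := by
  refine (abs_sum_le_sum_abs _ _).trans (le_trans (sum_le_sum fun d _ => ?_) hK)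
  split_ifs
  · exact le_rfl
  · rw [abs_zero]
    exact abs_nonneg _

private theorem gH_eq (ρ : ℕ → ℝ) (L : ℕ) (Q : Finset ℕ) (H x : ℕ) :
    gH ρ L Q H x = ∑ q ∈ Q, Y (FZ ρ L) H q x := by
  unfold gH bb Y
  rw [sum_comm]
  refine sum_congr rfl fun h _ => ?_
  rw [FF_eq, ← mul_sum]
  rfl

section

variable {ρ : ℕ → ℝ} {L : ℕ} {Q : Finset ℕ} {H : ℕ} {K V : ℝ}

private theorem Hyp.pq (h : Hyp ρ L Q H K V) : Pq (DL L) H Q := by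
  refine ⟨h.pr, h.lH, fun q hq => ?_⟩
  refine Nat.Coprime.prod_left fun d hd => ?_
  have h1 := h.pr q hq
  have h2 := h.lL q hq
  rw [mem_Icc] at hd
  rw [Nat.coprime_comm, h1.coprime_iff_not_dvd]
  intro h3
  have := Nat.le_of_dvd (by omega) h3
  omega

private theorem Hyp.fv (h : Hyp ρ L Q H K V) (z : ℤ) : ∑ i ∈ Icc 1 H, FZ ρ L (z + i) ^ 2 ≤ V := by
  have hD : (0 : ℤ) < ((DL L : ℕ) : ℤ) := by exact_mod_cast DL_pos L
  have h0 : 0 ≤ z % ((DL L : ℕ) : ℤ) := Int.emod_nonneg _ hD.ne'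
  obtain ⟨n, hn⟩ := Int.eq_ofNat_of_zero_le h0
  refine le_trans (le_of_eq ?_) (h.hV n)
  refine sum_congr rfl fun i _ => ?_
  rw [FF_eq, ← hn]
  congr 1
  have h1 : (z + i) % ((DL L : ℕ) : ℤ) = (z % ((DL L : ℕ) : ℤ) + i) % ((DL L : ℕ) : ℤ) := by
    rw [Int.emod_add_emod]
  unfold FZ
  refine sum_congr rfl fun d hd => ?_
  have h2 : (d : ℤ) ∣ ((DL L : ℕ) : ℤ) := by exact_mod_cast dvd_DL hd
  have h3 : (d : ℤ) ∣ z + i ↔ (d : ℤ) ∣ z % ((DL L : ℕ) : ℤ) + i := by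
    have e1 : z + i = (z % ((DL L : ℕ) : ℤ) + i) + ((DL L : ℕ) : ℤ) * (z / ((DL L : ℕ) : ℤ)) := by
      have := Int.emod_add_mul_ediv z ((DL L : ℕ) : ℤ)
      linarith
    rw [e1]
    exact Int.dvd_add_left (h2.mul_right _)
  simp only [h3]

private theorem rc_FZ (hK : ∑ d ∈ Icc 1 L, |ρ d| ≤ K) {M : ℕ} (hM : DL L ∣ M) : RC M K (FZ ρ L) := by
  have h1 := RC.sum (M := M) (Icc 1 L) (fun d => |ρ d|) (fun d z => if (d : ℤ) ∣ z then ρ d else 0) (fun d hd => by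
    have h2 := RC.ind (M := M) d 0 (ρ d) ((dvd_DL hd).trans hM)
    simp only [add_zero] at h2
    exact h2)
  exact RC.mono _ _ _ h1 hK

private theorem rc_cq {q : ℕ} (hq : 2 ≤ q) {M : ℕ} (hM : q ∣ M) : RC M 3 (cq q) := by
  have hq2 : (2 : ℝ) ≤ q := by exact_mod_cast hq
  have hq1 : (0 : ℝ) < (q : ℝ) - 1 := by linarith
  have h1 := RC.const (M := M) (1 / ((q : ℝ) - 1))
  have h2 := RC.ind (M := M) q 0 (-(q : ℝ) / ((q : ℝ) - 1)) hM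
  have h3 := RC.add _ _ _ _ h1 h2
  have h4 : (fun x : ℤ => 1 / ((q : ℝ) - 1) + if (q : ℤ) ∣ x + 0 then -(q : ℝ) / ((q : ℝ) - 1) else 0) = cq q := by
    funext x
    unfold cq
    rw [add_zero]
    split_ifs
    · field_simp
      ring
    · simp
  rw [h4] at h3
  refine RC.mono _ _ _ h3 ?_
  rw [abs_of_pos (by positivity), abs_div, abs_neg, abs_of_pos (by linarith : (0 : ℝ) < q), abs_of_pos hq1,
    ← add_div, div_le_iff₀ hq1]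
  linarith

private theorem rc_g (h : Hyp ρ L Q H K V) : RC (DL L * ∏ q ∈ Q, q) (3 * H * K * Q.card)
    (fun x => ∑ q ∈ Q, Y (FZ ρ L) H q x) := by
  have h1 := RC.sum (M := DL L * ∏ q ∈ Q, q) Q (fun _ => ∑ _i ∈ Icc 1 H, K * 3) (fun q x => Y (FZ ρ L) H q x)
    (fun q hq => by
      refine RC.sum (Icc 1 H) (fun _ => K * 3) (fun i x => FZ ρ L (x + i) * cq q (x + i)) fun i _ => ?_
      refine RC.mul ((rc_FZ h.hK (dvd_mul_right _ _)).shift i) ((rc_cq (h.pr q hq).two_le ?_).shift i)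
      exact (dvd_prod_of_mem (fun q => q) hq).mul_left _)
  refine RC.mono _ _ _ h1 (le_of_eq ?_)
  simp only [sum_const, Nat.card_Icc, Nat.add_sub_cancel, nsmul_eq_mul]
  ring

private theorem M_pos (h : Hyp ρ L Q H K V) : 0 < DL L * ∏ q ∈ Q, q :=
  Nat.mul_pos (DL_pos L) (prod_pos fun q hq => (h.pr q hq).pos)

private theorem exp_term (y : ℝ) (k : ℕ) : y ^ (2 * k) ≤ (2 * k).factorial * (Real.exp y + Real.exp (-y)) := by
  have h1 : |y| ^ (2 * k) / ((2 * k).factorial : ℝ) ≤ Real.exp |y| := Real.pow_div_factorial_le_exp _ (abs_nonneg y) _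
  have h2 : |y| ^ (2 * k) = y ^ (2 * k) := by
    rw [pow_mul, sq_abs, ← pow_mul]
  have h3 : Real.exp |y| ≤ Real.exp y + Real.exp (-y) := by
    rcases abs_choice y with h | h
    · rw [h]
      linarith [Real.exp_pos (-y)]
    · rw [h]
      linarith [Real.exp_pos y]
  have h4 : (0 : ℝ) < (2 * k).factorial := by exact_mod_cast Nat.factorial_pos _
  rw [h2, div_le_iff₀ h4] at h1
  nlinarith

private theorem mean_g (h : Hyp ρ L Q H K V) (k : ℕ) :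
    mean (DL L * ∏ q ∈ Q, q) (fun x => (∑ q ∈ Q, Y (FZ ρ L) H q x) ^ (2 * k)) ≤
      2 * (2 * k).factorial * Real.exp (4 * ∑ q ∈ Q, 1 / (q : ℝ)) * V ^ k := by
  have hM : (0 : ℝ) < ((DL L * ∏ q ∈ Q, q : ℕ) : ℝ) := by exact_mod_cast M_pos h
  have hV := h.V0
  obtain ⟨t, ht⟩ : ∃ t, t = 1 / √V := ⟨_, rfl⟩
  have ht2 : t ^ 2 * V = 1 := by
    rw [ht, div_pow, Real.sq_sqrt hV.le]
    field_simp
  have ht2' : (-t) ^ 2 * V = 1 := by rw [neg_sq, ht2]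
  have htk : t ^ (2 * k) * V ^ k = 1 := by rw [pow_mul, ← mul_pow, ht2, one_pow]
  have e1 := mean_exp (per_FZ ρ L) h.K0 (abs_FZ h.hK) h.fv h.hKV ht2 Q h.pq
  have e2 := mean_exp (per_FZ ρ L) h.K0 (abs_FZ h.hK) h.fv h.hKV ht2' Q h.pq
  unfold mean
  rw [div_le_iff₀ hM]
  have h5 : ∀ x ∈ range (DL L * ∏ q ∈ Q, q), (∑ q ∈ Q, Y (FZ ρ L) H q x) ^ (2 * k) ≤
      (2 * k).factorial * V ^ k * (Real.exp (t * ∑ q ∈ Q, Y (FZ ρ L) H q x) +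
        Real.exp (-t * ∑ q ∈ Q, Y (FZ ρ L) H q x)) := by
    intro x _
    obtain ⟨s, hs⟩ : ∃ s, s = ∑ q ∈ Q, Y (FZ ρ L) H q x := ⟨_, rfl⟩
    rw [← hs]
    have h6 := exp_term (t * s) k
    have h7 : s ^ (2 * k) = V ^ k * (t * s) ^ (2 * k) := by
      rw [mul_pow, ← mul_assoc, mul_comm (V ^ k), htk, one_mul]
    have h8 : -t * s = -(t * s) := by ring
    rw [h7, h8]
    calc V ^ k * (t * s) ^ (2 * k) ≤ V ^ k * ((2 * k).factorial * (Real.exp (t * s) + Real.exp (-(t * s)))) :=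
          mul_le_mul_of_nonneg_left h6 (by positivity)
      _ = _ := by ring
  refine (sum_le_sum h5).trans ?_
  rw [← mul_sum, sum_add_distrib]
  have h9 : (0 : ℝ) ≤ (2 * k).factorial * V ^ k := by positivity
  calc (2 * k).factorial * V ^ k * (∑ x ∈ range (DL L * ∏ q ∈ Q, q), Real.exp (t * ∑ q ∈ Q, Y (FZ ρ L) H q x) +
        ∑ x ∈ range (DL L * ∏ q ∈ Q, q), Real.exp (-t * ∑ q ∈ Q, Y (FZ ρ L) H q x))
      ≤ (2 * k).factorial * V ^ k * (((DL L * ∏ q ∈ Q, q : ℕ) : ℝ) * Real.exp (4 * ∑ q ∈ Q, 1 / (q : ℝ)) +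
        ((DL L * ∏ q ∈ Q, q : ℕ) : ℝ) * Real.exp (4 * ∑ q ∈ Q, 1 / (q : ℝ))) :=
        mul_le_mul_of_nonneg_left (add_le_add e1 e2) h9
    _ = _ := by ring

end

theorem mom {ρ : ℕ → ℝ} {L : ℕ} {Q : Finset ℕ} {H : ℕ} {K V : ℝ} (h : Hyp ρ L Q H K V) (k : ℕ) {a b : ℕ}
    (hab : a ≤ b) : ∑ x ∈ Ioc a b, gH ρ L Q H x ^ (2 * k) ≤
      ((b : ℝ) - a) * (2 * (2 * k).factorial * Real.exp (4 * ∑ q ∈ Q, 1 / (q : ℝ)) * V ^ k) +
        (3 * H * K * Q.card) ^ (2 * k) := by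
  obtain ⟨N, rfl⟩ := Nat.exists_eq_add_of_le hab
  have h1 := RC.interval (M_pos h) ((rc_g h).pow (2 * k)) a N
  have h2 := (abs_le.1 h1).2
  have h3 := mean_g h k
  have h4 : (N : ℝ) * mean (DL L * ∏ q ∈ Q, q) (fun x => (∑ q ∈ Q, Y (FZ ρ L) H q x) ^ (2 * k)) ≤
      N * (2 * (2 * k).factorial * Real.exp (4 * ∑ q ∈ Q, 1 / (q : ℝ)) * V ^ k) :=
    mul_le_mul_of_nonneg_left h3 (Nat.cast_nonneg N)
  have h5 : ∑ x ∈ Ioc a (a + N), gH ρ L Q H x ^ (2 * k) =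
      ∑ x ∈ Ioc a (a + N), (∑ q ∈ Q, Y (FZ ρ L) H q (x : ℤ)) ^ (2 * k) :=
    sum_congr rfl fun x _ => by rw [gH_eq]
  rw [h5]
  push_cast
  have h6 : (a : ℝ) + N - a = N := by ring
  rw [h6]
  linarith

/-- summation by parts -/
private theorem abel (u v : ℕ → ℝ) (a : ℕ) {b : ℕ} (hab : a ≤ b) : ∑ x ∈ Ioc a b, v x * u x =
    v b * ∑ y ∈ Ioc a b, u y - ∑ k ∈ Ioo a b, (v (k + 1) - v k) * ∑ y ∈ Ioc a k, u y := by
  induction b, hab using Nat.le_induction with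
  | base => simp
  | succ b hab ih =>
    rw [sum_Ioc_succ_top (by omega), sum_Ioc_succ_top (by omega), ih]
    rcases Nat.eq_or_lt_of_le hab with h | h
    · subst h
      have h1 : Ioo a (a + 1) = ∅ := by
        ext x
        simp only [mem_Ioo, notMem_empty, iff_false]
        omega
      simp [h1]
    · have h1 : Ioo a (b + 1) = insert b (Ioo a b) := by
        ext x
        simp only [mem_Ioo, mem_insert]
        omega
      rw [h1, sum_insert (by simp)]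
      ring

private theorem rc_bv {M : ℕ} (hM : 0 < M) {B : ℝ} {f : ℤ → ℝ} (h : RC M B f) {a b : ℕ} (hab : a ≤ b) (v : ℕ → ℝ) :
    |∑ x ∈ Ioc a b, v x * (f x - mean M f)| ≤ B * (|v b| + ∑ k ∈ Ioo a b, |v (k + 1) - v k|) := by
  have hT : ∀ k, a ≤ k → |∑ y ∈ Ioc a k, (f y - mean M f)| ≤ B := by
    intro k hk
    obtain ⟨N, rfl⟩ := Nat.exists_eq_add_of_le hk
    rw [sum_sub_distrib, sum_const, Nat.card_Ioc, Nat.add_sub_cancel_left, nsmul_eq_mul]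
    exact h.interval hM a N
  rw [abel (fun x => f x - mean M f) v a hab]
  refine (abs_sub _ _).trans ?_
  rw [abs_mul, mul_add]
  have h1 : |v b| * |∑ y ∈ Ioc a b, (f y - mean M f)| ≤ B * |v b| := by
    rw [mul_comm]
    exact mul_le_mul_of_nonneg_right (hT b hab) (abs_nonneg _)
  have h2 : |∑ k ∈ Ioo a b, (v (k + 1) - v k) * ∑ y ∈ Ioc a k, (f y - mean M f)| ≤
      B * ∑ k ∈ Ioo a b, |v (k + 1) - v k| := by
    refine (abs_sum_le_sum_abs _ _).trans ?_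
    rw [mul_sum]
    refine sum_le_sum fun k hk => ?_
    rw [abs_mul, mul_comm]
    exact mul_le_mul_of_nonneg_right (hT k (mem_Ioo.1 hk).1.le) (abs_nonneg _)
  exact add_le_add h1 h2

theorem bv1 {ρ : ℕ → ℝ} {L : ℕ} {Q : Finset ℕ} {H : ℕ} {K V : ℝ} (h : Hyp ρ L Q H K V) {a b : ℕ} (hab : a ≤ b)
    (v : ℕ → ℝ) : |∑ x ∈ Ioc a b, v x * gH ρ L Q H x| ≤
      (3 * H * K * Q.card) * (|v b| + ∑ k ∈ Ioo a b, |v (k + 1) - v k|) := by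
  have h1 := rc_bv (M_pos h) (rc_g h) hab v
  have h2 : mean (DL L * ∏ q ∈ Q, q) (fun x => ∑ q ∈ Q, Y (FZ ρ L) H q x) = 0 := by
    unfold mean
    rw [mean_one (per_FZ ρ L) Q h.pq, zero_div]
  rw [h2] at h1
  have h3 : ∑ x ∈ Ioc a b, v x * gH ρ L Q H x = ∑ x ∈ Ioc a b, v x * (∑ q ∈ Q, Y (FZ ρ L) H q (x : ℤ) - 0) :=
    sum_congr rfl fun x _ => by rw [gH_eq, sub_zero]
  rw [h3]
  exact h1

theorem bv2 {ρ : ℕ → ℝ} {L : ℕ} {Q : Finset ℕ} {H : ℕ} {K V : ℝ} (h : Hyp ρ L Q H K V) : ∃ V2 : ℝ,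
    0 ≤ V2 ∧ V2 ≤ 4 * V * ∑ q ∈ Q, 1 / (q : ℝ) ∧ ∀ a b : ℕ, a ≤ b → ∀ v : ℕ → ℝ,
      |∑ x ∈ Ioc a b, v x * (gH ρ L Q H x ^ 2 - V2)| ≤
        (3 * H * K * Q.card) ^ 2 * (|v b| + ∑ k ∈ Ioo a b, |v (k + 1) - v k|) := by
  have hM : (0 : ℝ) < ((DL L * ∏ q ∈ Q, q : ℕ) : ℝ) := by exact_mod_cast M_pos h
  refine ⟨mean (DL L * ∏ q ∈ Q, q) (fun x => (∑ q ∈ Q, Y (FZ ρ L) H q x) ^ 2), ?_, ?_, ?_⟩
  · exact div_nonneg (sum_nonneg fun x _ => sq_nonneg _) hM.le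
  · unfold mean
    rw [div_le_iff₀ hM]
    exact (mean_two (per_FZ ρ L) h.fv Q h.pq).trans (le_of_eq (mul_comm _ _))
  · intro a b hab v
    have h1 := rc_bv (M_pos h) ((rc_g h).pow 2) hab v
    have h3 : ∑ x ∈ Ioc a b, v x * (gH ρ L Q H x ^ 2 -
        mean (DL L * ∏ q ∈ Q, q) (fun x => (∑ q ∈ Q, Y (FZ ρ L) H q x) ^ 2)) =
        ∑ x ∈ Ioc a b, v x * ((∑ q ∈ Q, Y (FZ ρ L) H q (x : ℤ)) ^ 2 -
          mean (DL L * ∏ q ∈ Q, q) (fun x => (∑ q ∈ Q, Y (FZ ρ L) H q x) ^ 2)) :=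
      sum_congr rfl fun x _ => by rw [gH_eq]
    rw [h3]
    exact h1

theorem sum_rho {ρ : ℕ → ℝ} {L : ℕ} (hρ : SW L ρ) : ∑ d ∈ Icc 1 L, |ρ d| ≤ (L : ℝ) ^ 2 := by
  refine (sum_le_sum fun d _ => hρ.bd d).trans (le_of_eq ?_)
  rw [sum_const, Nat.card_Icc, Nat.add_sub_cancel, nsmul_eq_mul, sq]

private theorem mean_FZ2 (ρ : ℕ → ℝ) (L : ℕ) : mean (DL L) (fun x => FZ ρ L x ^ 2) =
    ∑ d ∈ Icc 1 L, ∑ e ∈ Icc 1 L, ρ d * ρ e / (Nat.lcm d e : ℝ) := by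
  have hD : (0 : ℝ) < ((DL L : ℕ) : ℝ) := by exact_mod_cast DL_pos L
  unfold mean
  have h1 : ∀ x : ℕ, FZ ρ L (x : ℤ) ^ 2 = ∑ d ∈ Icc 1 L, ∑ e ∈ Icc 1 L,
      if ((Nat.lcm d e : ℕ) : ℤ) ∣ (x : ℤ) + 0 then ρ d * ρ e else 0 := by
    intro x
    unfold FZ
    rw [sq, sum_mul_sum]
    refine sum_congr rfl fun d _ => sum_congr rfl fun e _ => ?_
    have h2 : ((Nat.lcm d e : ℕ) : ℤ) ∣ (x : ℤ) + 0 ↔ (d : ℤ) ∣ (x : ℤ) ∧ (e : ℤ) ∣ (x : ℤ) := by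
      rw [add_zero, Int.natCast_dvd, Int.natCast_dvd, Int.natCast_dvd, Nat.lcm_dvd_iff]
    by_cases g1 : (d : ℤ) ∣ (x : ℤ)
    · by_cases g2 : (e : ℤ) ∣ (x : ℤ)
      · rw [if_pos g1, if_pos g2, if_pos (h2.2 ⟨g1, g2⟩)]
      · rw [if_neg g2, if_neg (fun h => g2 (h2.1 h).2), mul_zero]
    · rw [if_neg g1, if_neg (fun h => g1 (h2.1 h).1), zero_mul]
  rw [sum_congr rfl fun x _ => h1 x, sum_comm, sum_div]
  refine sum_congr rfl fun d hd => ?_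
  rw [sum_comm, sum_div]
  refine sum_congr rfl fun e he => ?_
  rw [← sum_filter, sum_const, nsmul_eq_mul]
  have hpos : 0 < Nat.lcm d e := Nat.lcm_pos (mem_Icc.1 hd).1 (mem_Icc.1 he).1
  rw [count_full hpos 0 (Nat.lcm_dvd (dvd_DL hd) (dvd_DL he))]
  have hpos' : (0 : ℝ) < (Nat.lcm d e : ℝ) := by exact_mod_cast hpos
  field_simp

theorem fsh {ρ : ℕ → ℝ} {L : ℕ} (hρ : SW L ρ) {H : ℕ} (hL : 2 ≤ L) (hLH : (L : ℝ) ^ 4 ≤ H / Real.log L) (x : ℕ) :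
    ∑ h ∈ Icc 1 H, FF ρ L x (h : ℤ) ^ 2 ≤ 2 * H / Real.log L := by
  have hlog : 0 < Real.log L := Real.log_pos (by exact_mod_cast hL)
  have h1 := RC.interval (DL_pos L) ((rc_FZ (sum_rho hρ) (dvd_refl (DL L))).pow 2) x H
  have h2 := (abs_le.1 h1).2
  rw [mean_FZ2] at h2
  have h3 : ∑ h ∈ Icc 1 H, FF ρ L x (h : ℤ) ^ 2 = ∑ y ∈ Ioc x (x + H), FZ ρ L (y : ℤ) ^ 2 := by
    have h4 : Ioc x (x + H) = (Icc 1 H).image (fun h => x + h) := by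
      ext y
      simp only [mem_Ioc, mem_image, mem_Icc]
      constructor
      · rintro ⟨h5, h6⟩
        exact ⟨y - x, by omega, by omega⟩
      · rintro ⟨h, h5, rfl⟩
        omega
    rw [h4, sum_image (fun a _ b _ hab => by simpa using hab)]
    refine sum_congr rfl fun h _ => ?_
    rw [FF_eq]
    push_cast
    rfl
  rw [h3]
  have h5 : (H : ℝ) * ∑ d ∈ Icc 1 L, ∑ e ∈ Icc 1 L, ρ d * ρ e / (Nat.lcm d e : ℝ) ≤ H * (1 / Real.log L) :=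
    mul_le_mul_of_nonneg_left hρ.diag (Nat.cast_nonneg H)
  have h6 : ((L : ℝ) ^ 2) ^ 2 = (L : ℝ) ^ 4 := by ring
  rw [h6] at h2
  have h7 : (H : ℝ) * (1 / Real.log L) = H / Real.log L := by ring
  have h8 : 2 * (H : ℝ) / Real.log L = H / Real.log L + H / Real.log L := by ring
  rw [h8]
  linarith

end Pool.Agent.H96.MO
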