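import Mathlib

/-!
# Module ONE: exponential moment at one prime

MP_31d0eb_nt, moments of the test function `gH` (H67/VS/Defs). For fixed coefficients `a_h`, `h ≤ H < q`, the function
`Z(r) = ∑ a_h c_q(r + h)`, `c_q(z) = (1 - q 1_{q | z}) / (q - 1)`, has mean value `0` mod `q` and `∑_r Z(r)^2 ≤ q^2 V / (q-1)^2`.
-/

set_option autoImplicit false

open Finset

namespace Pool.Agent.H96.MO

/-- the factor at the prime `q` -/
noncomputable def cq (q : ℕ) (z : ℤ) : ℝ := (1 - if (q : ℤ) ∣ z then (q : ℝ) else 0) / ((q : ℝ) - 1)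

/-- the indicator of the multiples of `q` -/
noncomputable def uq (q : ℕ) (z : ℤ) : ℝ := if (q : ℤ) ∣ z then 1 else 0

theorem cq_eq (q : ℕ) (z : ℤ) : cq q z = (1 - q * uq q z) / ((q : ℝ) - 1) := by
  unfold cq uq
  split_ifs <;> simp

theorem dvd_iff {q r : ℕ} (hr : r < q) (z : ℤ) : (q : ℤ) ∣ r + z ↔ (r : ℤ) = (-z) % q := by
  have h1 : (r : ℤ) % q = r := Int.emod_eq_of_lt (by positivity) (by exact_mod_cast hr)
  constructor
  · intro h
    have h2 : (-z) ≡ r [ZMOD q] := by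
      rw [Int.modEq_iff_dvd]
      have : (r : ℤ) - -z = r + z := by ring
      rwa [this]
    have h3 : (-z) % q = (r : ℤ) % q := h2
    rw [h3, h1]
  · intro h
    have h2 : (-z) ≡ r [ZMOD q] := by
      show (-z) % q = (r : ℤ) % q
      rw [h1, h]
    rw [Int.modEq_iff_dvd] at h2
    have : (r : ℤ) - -z = r + z := by ring
    rwa [this] at h2

theorem sum_uq {q : ℕ} (hq : 0 < q) (z : ℤ) : ∑ r ∈ range q, uq q (r + z) = 1 := by
  have h1 : 0 ≤ (-z) % q := Int.emod_nonneg _ (by exact_mod_cast hq.ne')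
  have h2 : (-z) % q < q := Int.emod_lt_of_pos _ (by exact_mod_cast hq)
  obtain ⟨r0, hr0⟩ := Int.eq_ofNat_of_zero_le h1
  have h3 : r0 < q := by
    have : (r0 : ℤ) < q := by rw [← hr0]; exact h2
    exact_mod_cast this
  rw [sum_eq_single r0]
  · unfold uq
    rw [if_pos ((dvd_iff h3 z).2 hr0.symm)]
  · intro r hr hne
    unfold uq
    rw [if_neg]
    intro h
    have h4 := (dvd_iff (mem_range.1 hr) z).1 h
    rw [hr0] at h4
    exact hne (by exact_mod_cast h4)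
  · intro h
    exact absurd (mem_range.2 h3) h

theorem uq_sq (q : ℕ) (z : ℤ) : uq q z * uq q z = uq q z := by
  unfold uq
  split_ifs <;> simp

/-- at most one `h ≤ H < q` -/
theorem uq_disj {q H : ℕ} (hH : H < q) (z : ℤ) {h h' : ℕ} (hh : h ∈ Icc 1 H) (hh' : h' ∈ Icc 1 H)
    (hne : h ≠ h') : uq q (z + h) * uq q (z + h') = 0 := by
  unfold uq
  by_cases h1 : (q : ℤ) ∣ z + h
  · by_cases h2 : (q : ℤ) ∣ z + h'
    · exfalso
      have h3 : (q : ℤ) ∣ (h : ℤ) - h' := by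
        have := dvd_sub h1 h2
        have e : z + (h : ℤ) - (z + h') = h - h' := by ring
        rwa [e] at this
      rw [mem_Icc] at hh hh'
      have h4 : (h : ℤ) - h' = 0 := by
        refine Int.eq_zero_of_abs_lt_dvd h3 ?_
        rw [abs_lt]
        constructor <;> omega
      exact hne (by omega)
    · rw [if_neg h2, mul_zero]
  · rw [if_neg h1, zero_mul]

section

variable {q H : ℕ} (hq : 2 ≤ q) (hH : H < q) (a : ℕ → ℝ)

include hq hH

theorem sum_A : ∑ r ∈ range q, ∑ h ∈ Icc 1 H, a h * uq q (r + h) = ∑ h ∈ Icc 1 H, a h := by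
  rw [sum_comm]
  refine sum_congr rfl fun h _ => ?_
  rw [← mul_sum, sum_uq (by omega), mul_one]

theorem sum_A2 : ∑ r ∈ range q, (∑ h ∈ Icc 1 H, a h * uq q (r + h)) ^ 2 = ∑ h ∈ Icc 1 H, a h ^ 2 := by
  have h1 : ∀ r : ℕ, (∑ h ∈ Icc 1 H, a h * uq q (r + h)) ^ 2 = ∑ h ∈ Icc 1 H, a h ^ 2 * uq q (r + h) := by
    intro r
    rw [sq, sum_mul_sum]
    refine sum_congr rfl fun h hh => ?_
    rw [sum_eq_single h]
    · have := uq_sq q ((r : ℤ) + h)
      calc a h * uq q (r + h) * (a h * uq q (r + h)) = a h ^ 2 * (uq q (r + h) * uq q (r + h)) := by ring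
        _ = _ := by rw [this]
    · intro h' hh' hne
      have := uq_disj hH (r : ℤ) hh hh' hne.symm
      calc a h * uq q (r + h) * (a h' * uq q (r + h')) = a h * a h' * (uq q (r + h) * uq q (r + h')) := by ring
        _ = 0 := by rw [this, mul_zero]
    · intro h2
      exact absurd hh h2
  rw [sum_congr rfl fun r _ => h1 r, sum_comm]
  refine sum_congr rfl fun h _ => ?_
  rw [← mul_sum, sum_uq (by omega), mul_one]

theorem abs_A {B : ℝ} (hB : 0 ≤ B) (ha : ∀ h ∈ Icc 1 H, |a h| ≤ B) (r : ℕ) :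
    |∑ h ∈ Icc 1 H, a h * uq q (r + h)| ≤ B := by
  by_cases hex : ∃ h0 ∈ Icc 1 H, uq q ((r : ℤ) + h0) ≠ 0
  · obtain ⟨h0, hh0, hne⟩ := hex
    rw [sum_eq_single_of_mem h0 hh0]
    · rw [abs_mul]
      have h1 : |uq q ((r : ℤ) + h0)| ≤ 1 := by
        unfold uq
        split_ifs <;> simp
      exact (mul_le_of_le_one_right (abs_nonneg _) h1).trans (ha h0 hh0)
    · intro h hh hne'
      have := uq_disj hH (r : ℤ) hh hh0 hne'
      rcases mul_eq_zero.1 this with h2 | h2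
      · rw [h2, mul_zero]
      · exact absurd h2 hne
  · push Not at hex
    rw [sum_eq_zero fun h hh => by rw [hex h hh, mul_zero], abs_zero]
    exact hB

/-- the exponential moment at one prime -/
theorem one_prime {B V : ℝ} (hB0 : 0 ≤ B) (ha : ∀ h ∈ Icc 1 H, |a h| ≤ B)
    (ha2 : ∑ h ∈ Icc 1 H, a h ^ 2 ≤ V) (hB : 9 * B ^ 2 ≤ V) {t : ℝ} (ht : t ^ 2 * V = 1) :
    ∑ r ∈ range q, Real.exp (t * ∑ h ∈ Icc 1 H, a h * cq q (r + h)) ≤ q * Real.exp (4 / q) := by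
  have hq0 : (0 : ℝ) < q := by
    have : 0 < q := by omega
    exact_mod_cast this
  have hq2 : (2 : ℝ) ≤ q := by exact_mod_cast hq
  have hq1 : (0 : ℝ) < (q : ℝ) - 1 := by linarith
  obtain ⟨S, hS⟩ : ∃ S : ℝ, S = ∑ h ∈ Icc 1 H, a h := ⟨_, rfl⟩
  obtain ⟨A, hA⟩ : ∃ A : ℕ → ℝ, A = fun r : ℕ => ∑ h ∈ Icc 1 H, a h * uq q ((r : ℤ) + h) := ⟨_, rfl⟩
  have hZ : ∀ r : ℕ, ∑ h ∈ Icc 1 H, a h * cq q (r + h) = (S - q * A r) / ((q : ℝ) - 1) := by
    intro r
    rw [hS, hA]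
    simp only [cq_eq]
    rw [eq_div_iff hq1.ne', sum_mul, mul_sum, ← sum_sub_distrib]
    refine sum_congr rfl fun h _ => ?_
    field_simp
  have hAB : ∀ r, |A r| ≤ B := fun r => by rw [hA]; exact abs_A hq hH a hB0 ha r
  have hSB : |S| ≤ ((q : ℝ) - 1) * B := by
    rw [hS]
    refine (abs_sum_le_sum_abs _ _).trans ((sum_le_sum ha).trans ?_)
    rw [sum_const, Nat.card_Icc, Nat.add_sub_cancel, nsmul_eq_mul]
    refine mul_le_mul_of_nonneg_right ?_ hB0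
    have : (H : ℝ) + 1 ≤ q := by exact_mod_cast hH
    linarith
  have hZB : ∀ r, |(S - q * A r) / ((q : ℝ) - 1)| ≤ 3 * B := by
    intro r
    rw [abs_div, abs_of_pos hq1, div_le_iff₀ hq1]
    have h1 : |S - q * A r| ≤ |S| + |q * A r| := abs_sub _ _
    rw [abs_mul, abs_of_pos hq0] at h1
    have h2 : (q : ℝ) * |A r| ≤ q * B := mul_le_mul_of_nonneg_left (hAB r) hq0.le
    nlinarith
  have htZ : ∀ r, |t * ((S - q * A r) / ((q : ℝ) - 1))| ≤ 1 := by
    intro r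
    rw [← sq_le_one_iff_abs_le_one, mul_pow]
    have h1 : ((S - q * A r) / ((q : ℝ) - 1)) ^ 2 ≤ (3 * B) ^ 2 := sq_le_sq' (by linarith [(abs_le.1 (hZB r)).1])
      (abs_le.1 (hZB r)).2
    calc t ^ 2 * ((S - q * A r) / ((q : ℝ) - 1)) ^ 2 ≤ t ^ 2 * (3 * B) ^ 2 := mul_le_mul_of_nonneg_left h1 (sq_nonneg t)
      _ = t ^ 2 * (9 * B ^ 2) := by ring
      _ ≤ t ^ 2 * V := mul_le_mul_of_nonneg_left hB (sq_nonneg t)
      _ = 1 := ht
  have hA1 : ∑ r ∈ range q, A r = S := by rw [hA, hS]; exact sum_A hq hH a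
  have hA2 : ∑ r ∈ range q, A r ^ 2 = ∑ h ∈ Icc 1 H, a h ^ 2 := by rw [hA]; exact sum_A2 hq hH a
  have hterm : ∀ r ∈ range q, Real.exp (t * ∑ h ∈ Icc 1 H, a h * cq q (r + h)) ≤
      1 + t * ((S - q * A r) / ((q : ℝ) - 1)) + (t * ((S - q * A r) / ((q : ℝ) - 1))) ^ 2 := by
    intro r _
    rw [hZ r]
    have h1 := Real.abs_exp_sub_one_sub_id_le (htZ r)
    have h2 := (abs_le.1 h1).2
    linarith
  refine (sum_le_sum hterm).trans ?_
  rw [sum_add_distrib, sum_add_distrib, sum_const, card_range, nsmul_eq_mul, mul_one]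
  have hm : ∑ r ∈ range q, t * ((S - q * A r) / ((q : ℝ) - 1)) = 0 := by
    rw [← mul_sum, ← sum_div, sum_sub_distrib, ← mul_sum, hA1, sum_const, card_range, nsmul_eq_mul, sub_self,
      zero_div, mul_zero]
  have hs : ∑ r ∈ range q, (t * ((S - q * A r) / ((q : ℝ) - 1))) ^ 2 ≤ 4 := by
    have h1 : ∑ r ∈ range q, (t * ((S - q * A r) / ((q : ℝ) - 1))) ^ 2 =
        t ^ 2 * (((q : ℝ) ^ 2 * ∑ r ∈ range q, A r ^ 2 - q * S ^ 2) / ((q : ℝ) - 1) ^ 2) := by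
      have h2 : ∀ r ∈ range q, (t * ((S - q * A r) / ((q : ℝ) - 1))) ^ 2 =
          t ^ 2 / ((q : ℝ) - 1) ^ 2 * (S ^ 2 - 2 * S * q * A r + (q : ℝ) ^ 2 * A r ^ 2) := by
        intro r _
        field_simp
        ring
      rw [sum_congr rfl h2, ← mul_sum, sum_add_distrib, sum_sub_distrib, sum_const, card_range, nsmul_eq_mul,
        ← mul_sum, ← mul_sum, hA1]
      field_simp
      ring
    rw [h1, hA2]
    have h3 : (q : ℝ) ^ 2 * ∑ h ∈ Icc 1 H, a h ^ 2 - q * S ^ 2 ≤ (q : ℝ) ^ 2 * V := by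
      have : 0 ≤ (q : ℝ) * S ^ 2 := by positivity
      nlinarith [mul_le_mul_of_nonneg_left ha2 (sq_nonneg (q : ℝ))]
    have h4 : ((q : ℝ) ^ 2 * ∑ h ∈ Icc 1 H, a h ^ 2 - q * S ^ 2) / ((q : ℝ) - 1) ^ 2 ≤ 4 * V := by
      rw [div_le_iff₀ (by positivity)]
      refine h3.trans ?_
      have hV0 : 0 ≤ V := le_trans (by positivity) hB
      have h5 : (q : ℝ) ^ 2 ≤ 4 * ((q : ℝ) - 1) ^ 2 := by nlinarith
      nlinarith [mul_le_mul_of_nonneg_right h5 hV0]
    calc _ ≤ t ^ 2 * (4 * V) := mul_le_mul_of_nonneg_left h4 (sq_nonneg t)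
      _ = 4 * (t ^ 2 * V) := by ring
      _ = 4 := by rw [ht, mul_one]
  rw [hm]
  have h6 : (4 : ℝ) / q + 1 ≤ Real.exp (4 / q) := Real.add_one_le_exp _
  have h7 : (q : ℝ) * (4 / q + 1) ≤ q * Real.exp (4 / q) := mul_le_mul_of_nonneg_left h6 hq0.le
  have h8 : (q : ℝ) * (4 / q + 1) = 4 + q := by field_simp
  linarith

end

end Pool.Agent.H96.MO
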